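import Pool.Agent.Q7.SZ.Ell

/-! Class functions, induced characters and Frobenius reciprocity. -/

set_option autoImplicit false
set_option linter.unusedSectionVars false

namespace Pool.Agent.Q92.RT

open Pool.Agent.H302R2 Pool.Agent.H541R3.ART Pool.Agent.W446.AS

section
variable {G : Type} [Group G] [Fintype G]

theorem class_op_zero {θ : G → ℂ} (hθ : ∀ g x : G, θ (x * g * x⁻¹) = θ g)
    (h0 : ∀ χ ∈ Irr G, ∑ g, θ g * χ g⁻¹ = 0) :
    ∀ (n : ℕ) {V : Type} [AddCommGroup V] [Module ℂ V] [FiniteDimensional ℂ V]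
    (ρ : Representation ℂ G V), Module.finrank ℂ V = n → ∀ v : V, ∑ g : G, θ g • ρ g⁻¹ v = 0 := by
  intro n
  induction n using Nat.strong_induction_on with
  | _ n ih =>
    intro V _ _ _ ρ hn
    by_cases hV : Nontrivial V
    swap
    · rw [not_nontrivial_iff_subsingleton] at hV
      intro v
      exact Subsingleton.elim _ _
    by_cases hI : Irred ρ
    · obtain ⟨c, hc, hc2⟩ := hI.class_op hθ
      rw [h0 _ (irr_of_irred hI)] at hc2
      have h3 : (Module.finrank ℂ V : ℂ) ≠ 0 := by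
        exact_mod_cast (Module.finrank_pos (R := ℂ) (M := V)).ne'
      have h4 : c = 0 := by
        rcases mul_eq_zero.1 hc2.symm with h | h
        · exact h
        · exact absurd h h3
      intro v
      rw [hc v, h4, zero_smul]
    have : ∃ W : Submodule ℂ V, (∀ g, ∀ v ∈ W, ρ g v ∈ W) ∧ W ≠ ⊥ ∧ W ≠ ⊤ := by
      by_contra hcon
      push Not at hcon
      apply hI
      refine ⟨hV, fun W hW => ?_⟩
      by_cases h : W = ⊥
      · left; exact h
      · right; exact hcon W hW h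
    obtain ⟨W, hW, hb, ht⟩ := this
    let W1 : Subrepresentation ρ := ⟨W, fun g v hv => hW g v hv⟩
    have : NeZero (Nat.card G : ℂ) := ⟨by exact_mod_cast Nat.card_pos.ne'⟩
    obtain ⟨W2, hc⟩ := exists_isCompl W1
    have hc1 : IsCompl W1.toSubmodule W2.toSubmodule := by
      refine ⟨?_, ?_⟩
      · rw [disjoint_iff]
        have := hc.inf_eq_bot
        exact congrArg Subrepresentation.toSubmodule this
      · rw [codisjoint_iff]
        have := hc.sup_eq_top
        exact congrArg Subrepresentation.toSubmodule this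
    have hb2 : W2.toSubmodule ≠ ⊤ := by
      intro h
      apply hb
      have h1 := hc1.inf_eq_bot
      rw [h, inf_top_eq] at h1
      exact h1
    have hlt1 : Module.finrank ℂ W1.toSubmodule < n := by
      rw [← hn]
      exact Submodule.finrank_lt ht
    have hlt2 : Module.finrank ℂ W2.toSubmodule < n := by
      rw [← hn]
      exact Submodule.finrank_lt hb2
    have h1 := ih _ hlt1 W1.toRepresentation rfl
    have h2 := ih _ hlt2 W2.toRepresentation rfl
    intro v
    have hv : v ∈ W1.toSubmodule ⊔ W2.toSubmodule := by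
      rw [hc1.sup_eq_top]
      exact Submodule.mem_top
    obtain ⟨a, ha, b, hb', rfl⟩ := Submodule.mem_sup.1 hv
    have e1 : ∑ g : G, θ g • ρ g⁻¹ a = 0 := by
      have h := congrArg (fun x : W1.toSubmodule => (x : V)) (h1 ⟨a, ha⟩)
      simp only [AddSubmonoidClass.coe_finsetSum, Submodule.coe_zero] at h
      exact h
    have e2 : ∑ g : G, θ g • ρ g⁻¹ b = 0 := by
      have h := congrArg (fun x : W2.toSubmodule => (x : V)) (h2 ⟨b, hb'⟩)
      simp only [AddSubmonoidClass.coe_finsetSum, Submodule.coe_zero] at h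
      exact h
    simp only [map_add, smul_add, Finset.sum_add_distrib, e1, e2, add_zero]

theorem class_eq_zero {θ : G → ℂ} (hθ : ∀ g x : G, θ (x * g * x⁻¹) = θ g)
    (h0 : ∀ χ ∈ Irr G, ∑ g, θ g * χ g⁻¹ = 0) : θ = 0 := by
  classical
  let ρ : Representation ℂ G (G → ℂ) :=
    { toFun := fun g =>
        { toFun := fun f x => f (x * g)
          map_add' := fun _ _ => rfl
          map_smul' := fun _ _ => rfl }
      map_one' := by
        ext f x
        simp
      map_mul' := by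
        intro a b
        ext f x
        simp [mul_assoc] }
  funext g
  have h := congrFun (class_op_zero hθ h0 _ ρ rfl (Pi.single 1 1)) g
  rw [Finset.sum_apply, Finset.sum_eq_single g] at h
  · have h2 : (ρ g⁻¹) (Pi.single 1 1) g = (1 : ℂ) := by
      change (Pi.single 1 1 : G → ℂ) (g * g⁻¹) = 1
      rw [mul_inv_cancel, Pi.single_eq_same]
    rw [Pi.smul_apply, h2, smul_eq_mul, mul_one] at h
    exact h
  · intro b _ hb
    have h2 : (ρ b⁻¹) (Pi.single 1 1) g = (0 : ℂ) := by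
      change (Pi.single 1 1 : G → ℂ) (g * b⁻¹) = 0
      rw [Pi.single_eq_of_ne]
      intro h3
      exact hb (mul_inv_eq_one.1 h3).symm
    rw [Pi.smul_apply, h2, smul_zero]
  · intro h3
    exact absurd (Finset.mem_univ _) h3

/-- A class function is a combination of the irreducible characters. -/
theorem class_expand {θ : G → ℂ} (hθ : ∀ g x : G, θ (x * g * x⁻¹) = θ g) {m : (G → ℂ) → ℂ}
    (hm : ∀ χ ∈ Irr G, ∑ g, θ g * χ g⁻¹ = m χ * Nat.card G) (g : G) :
    θ g = ∑ χ ∈ irrF G, m χ * χ g := by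
  have h : (fun g => θ g - ∑ χ ∈ irrF G, m χ * χ g) = 0 := by
    apply class_eq_zero
    · intro g x
      rw [hθ]
      congr 1
      exact Finset.sum_congr rfl fun χ hχ => by rw [Irr.conj (mem_irrF.1 hχ)]
    · intro χ hχ
      simp only [sub_mul, Finset.sum_sub_distrib]
      rw [hm χ hχ, sub_eq_zero]
      simp_rw [Finset.sum_mul]
      rw [Finset.sum_comm, Finset.sum_eq_single χ]
      · simp_rw [mul_assoc]
        rw [← Finset.mul_sum, pair_self hχ]
      · intro χ' h' hne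
        simp_rw [mul_assoc]
        rw [← Finset.mul_sum, pair_ne (mem_irrF.1 h') hχ hne, mul_zero]
      · intro h1
        exact absurd (mem_irrF.2 hχ) h1
  exact sub_eq_zero.1 (congrFun h g)

end

section
variable {G : Type} [Group G]

open scoped Classical in
/-- The character of `G` induced by the linear character `ψ` of the subgroup `H`. -/
noncomputable def induced (H : Subgroup G) (ψ : H →* ℂˣ) (g : G) : ℂ :=
  (Nat.card H : ℂ)⁻¹ *
    ∑ᶠ x : G, if h : x⁻¹ * g * x ∈ H then ((ψ ⟨x⁻¹ * g * x, h⟩ : ℂˣ) : ℂ) else 0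

variable [Finite G]

theorem induced_conj (H : Subgroup G) (ψ : H →* ℂˣ) (g y : G) :
    induced H ψ (y * g * y⁻¹) = induced H ψ g := by
  classical
  have : Fintype G := Fintype.ofFinite G
  unfold induced
  congr 1
  rw [finsum_eq_sum_of_fintype, finsum_eq_sum_of_fintype]
  refine Fintype.sum_equiv (Equiv.mulLeft y⁻¹) _ _ fun x => ?_
  have e : (y⁻¹ * x)⁻¹ * g * (y⁻¹ * x) = x⁻¹ * (y * g * y⁻¹) * x := by group
  simp only [Equiv.coe_mulLeft, e]

theorem induced_pair [Fintype G] (H : Subgroup G) (ψ : H →* ℂˣ) {χ : G → ℂ}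
    (hχ : ∀ g x : G, χ (x * g * x⁻¹) = χ g) {m : ℂ}
    (hm : ∑ᶠ h : H, χ h * (((ψ h)⁻¹ : ℂˣ) : ℂ) = m * (Nat.card H : ℂ)) :
    ∑ g, induced H ψ g * χ g⁻¹ = m * Nat.card G := by
  classical
  have : Fintype H := Fintype.ofFinite H
  have hH : (Nat.card H : ℂ) ≠ 0 := by exact_mod_cast Nat.card_pos.ne'
  unfold induced
  simp_rw [finsum_eq_sum_of_fintype] at hm ⊢
  have h0 : ∀ g : G, (Nat.card H : ℂ)⁻¹ * (∑ x : G, if h : x⁻¹ * g * x ∈ H then
      ((ψ ⟨x⁻¹ * g * x, h⟩ : ℂˣ) : ℂ) else 0) * χ g⁻¹ = (Nat.card H : ℂ)⁻¹ *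
      ∑ x : G, (if h : x⁻¹ * g * x ∈ H then
      ((ψ ⟨x⁻¹ * g * x, h⟩ : ℂˣ) : ℂ) else 0) * χ g⁻¹ := by
    intro g
    rw [mul_assoc, Finset.sum_mul]
  rw [Finset.sum_congr rfl fun g _ => h0 g, ← Finset.mul_sum, Finset.sum_comm]
  have h1 : ∀ x : G, ∑ g : G, (if h : x⁻¹ * g * x ∈ H then
      ((ψ ⟨x⁻¹ * g * x, h⟩ : ℂˣ) : ℂ) else 0) * χ g⁻¹ = m * Nat.card H := by
    intro x
    rw [← hm]
    have h2 : ∑ g : G, (if h : x⁻¹ * g * x ∈ H then
        ((ψ ⟨x⁻¹ * g * x, h⟩ : ℂˣ) : ℂ) else 0) * χ g⁻¹ =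
        ∑ g : G, (if h : g ∈ H then ((ψ ⟨g, h⟩ : ℂˣ) : ℂ) * χ g⁻¹ else 0) := by
      refine Fintype.sum_equiv (MulAut.conj x⁻¹).toEquiv _ _ fun g => ?_
      have e : (MulAut.conj x⁻¹).toEquiv g = x⁻¹ * g * x := by
        simp
      have e2 : χ (x⁻¹ * g * x)⁻¹ = χ g⁻¹ := by
        have h3 := hχ g⁻¹ x⁻¹
        rw [← h3]
        congr 1
        group
      simp only [e]
      split_ifs with h
      · rw [e2]
      · rw [zero_mul]
    rw [h2]
    have h4 : ∑ h : H, χ h * (((ψ h)⁻¹ : ℂˣ) : ℂ) = ∑ h : H, χ ((h : G)⁻¹) * ((ψ h : ℂˣ) : ℂ) := by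
      refine Fintype.sum_equiv (Equiv.inv H) _ _ fun h => ?_
      simp only [Equiv.inv_apply, Subgroup.coe_inv, inv_inv, map_inv]
    rw [h4]
    have h5 := Finset.sum_subtype (F := this) (Finset.univ.filter fun g => g ∈ H)
      (p := fun g => g ∈ H) (fun g => by simp)
      (fun g => if h : g ∈ H then ((ψ ⟨g, h⟩ : ℂˣ) : ℂ) * χ g⁻¹ else 0)
    have h6 : ∑ g : G, (if h : g ∈ H then ((ψ ⟨g, h⟩ : ℂˣ) : ℂ) * χ g⁻¹ else 0) =
        ∑ g ∈ Finset.univ.filter (fun g => g ∈ H),
          (if h : g ∈ H then ((ψ ⟨g, h⟩ : ℂˣ) : ℂ) * χ g⁻¹ else 0) := by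
      rw [Finset.sum_filter]
      refine Finset.sum_congr rfl fun g _ => ?_
      by_cases h : g ∈ H
      · rw [if_pos h]
      · rw [if_neg h, dif_neg h]
    rw [h6, h5]
    refine Finset.sum_congr rfl fun h _ => ?_
    rw [dif_pos h.2, mul_comm]
  rw [Finset.sum_congr rfl fun x _ => h1 x, Finset.sum_const, Finset.card_univ, nsmul_eq_mul,
    Nat.card_eq_fintype_card (α := G)]
  field_simp

end

end Pool.Agent.Q92.RT
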