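import Pool.Agent.Q92.RT.Conv

/-! The L-functions over the fields between `K` and `M` as twisted L-functions. -/

set_option autoImplicit false
set_option linter.unusedSectionVars false

namespace Pool.Agent.Q92.RT

open NumberField IsDedekindDomain Filter Pool.Agent.H341R2 Pool.Agent.H341R2.EC
  Pool.Agent.H921R2.TatePole Pool.Agent.W353.NF Pool.Agent.Q5.BR
open Pool.Agent.TH322.BC.Edge (MinimalModels)

open Pool.Agent.TH322.BC.Edge renaming LSeries → LS

section
variable {K M : Type} [Field K] [NumberField K] [Field M] [NumberField M] [Algebra K M]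

theorem ramified_finite : {v : HeightOneSpectrum (𝓞 K) | ¬ Unramified M v}.Finite := by
  have h0 : differentIdeal (𝓞 K) (𝓞 M) ≠ ⊥ := differentIdeal_ne_bot
  have h1 : {w : HeightOneSpectrum (𝓞 M) | w.asIdeal ∣ differentIdeal (𝓞 K) (𝓞 M)}.Finite :=
    Ideal.finite_factors h0
  refine (h1.image fun w => w.under (𝓞 K)).subset ?_
  intro v hv
  have hv' : ¬ Unramified M v := hv
  unfold Unramified at hv'
  push Not at hv'
  obtain ⟨w, hw, hle⟩ := hv'
  refine ⟨w, ?_, hw⟩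
  have hvm : v.asIdeal.IsMaximal := v.isMaximal
  have h2 := pow_sub_one_dvd_differentIdeal (𝓞 K) w.asIdeal 2 v.ne_bot (Ideal.dvd_iff_le.2 hle)
  simpa using h2

theorem bad_finite {W : WeierstrassCurve (𝓞 K)} (hW : W.Δ ≠ 0) :
    {v : HeightOneSpectrum (𝓞 K) | ¬ Good M W v}.Finite := by
  refine ((finite_mem (K := K) (x := (6 : 𝓞 K)) (by norm_num)).union
    ((finite_mem hW).union (ramified_finite (K := K) (M := M)))).subset ?_
  intro v hv
  have hv' : ¬ Good M W v := hv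
  unfold Good at hv'
  by_cases h6 : (6 : 𝓞 K) ∈ v.asIdeal
  · left; exact h6
  right
  by_cases hΔ : W.Δ ∈ v.asIdeal
  · left; exact hΔ
  right
  intro hu
  exact hv' ⟨h6, hΔ, hu⟩

end

section
variable {K F : Type} [Field K] [NumberField K] [Field F] [NumberField F] [Algebra K F]

/-- the trace over an extension -/
theorem trace_model {E : WeierstrassCurve K} {W : WeierstrassCurve (𝓞 K)} (hW : IsModel E W)
    {V : HeightOneSpectrum (𝓞 F) → WeierstrassCurve (𝓞 F)}
    (hV : MinimalModels (E.map (algebraMap K F)) V) {w : HeightOneSpectrum (𝓞 F)}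
    (h6 : (6 : 𝓞 K) ∉ (w.under (𝓞 K)).asIdeal) (hΔ : W.Δ ∉ (w.under (𝓞 K)).asIdeal) :
    (nm w : ℤ) - (aff (red w (V w)) : ℤ) =
      powerSum (frobTrace W (w.under (𝓞 K))) (nm (w.under (𝓞 K))) (rdeg K w) := by
  classical
  have hWF : IsModel (E.map (algebraMap K F)) (W.map (algebraMap (𝓞 K) (𝓞 F))) := isModel_map hW
  have h' : 6 * (W.map (algebraMap (𝓞 K) (𝓞 F))).Δ ∉ w.asIdeal := by
    rw [WeierstrassCurve.map_Δ]
    intro h1
    have h2 : algebraMap (𝓞 K) (𝓞 F) (6 * W.Δ) ∈ w.asIdeal := by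
      rwa [map_mul, map_ofNat]
    rcases (w.under (𝓞 K)).isPrime.mem_or_mem (h2 : 6 * W.Δ ∈ (w.under (𝓞 K)).asIdeal) with h | h
    · exact h6 h
    · exact hΔ h
  obtain ⟨h6w, hWΔ, hVΔ⟩ := good_of_model hV hWF h'
  have hlo : w.asIdeal.LiesOver (w.under (𝓞 K)).asIdeal := ⟨rfl⟩
  have h1 : aff (red w (V w)) = aff (red w (W.map (algebraMap (𝓞 K) (𝓞 F)))) :=
    aff_model (hV w).1 hWF hVΔ hWΔ h6w
  have h2 : red w (W.map (algebraMap (𝓞 K) (𝓞 F))) =
      (red (w.under (𝓞 K)) W).map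
        (algebraMap (𝓞 K ⧸ (w.under (𝓞 K)).asIdeal) (𝓞 F ⧸ w.asIdeal)) := by
    unfold red
    rw [WeierstrassCurve.map_map, WeierstrassCurve.map_map]
    rfl
  have h3 : Module.finrank (𝓞 K ⧸ (w.under (𝓞 K)).asIdeal) (𝓞 F ⧸ w.asIdeal) = rdeg K w := by
    unfold rdeg
    rw [Ideal.inertiaDeg'_algebraMap]
  have h6' : (6 : 𝓞 K ⧸ (w.under (𝓞 K)).asIdeal) ≠ 0 := by
    have := mk_ne h6
    rwa [map_ofNat] at this
  have hΔ' : (red (w.under (𝓞 K)) W).Δ ≠ 0 := by
    unfold red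
    rw [WeierstrassCurve.map_Δ]
    exact mk_ne hΔ
  have h4 := trace_ext (k := 𝓞 K ⧸ (w.under (𝓞 K)).asIdeal) (κ := 𝓞 F ⧸ w.asIdeal) h6'
    (red (w.under (𝓞 K)) W) hΔ'
  rw [h3, ← h2, ← h1] at h4
  rw [powerSum_eq, frobTrace_eq]
  exact h4

/-- the logarithm of the Euler factor at a good prime -/
noncomputable def lg (W : WeierstrassCurve (𝓞 K)) (w : HeightOneSpectrum (𝓞 F)) (s : ℂ) : ℂ :=
  ∑' n, tm (powerSum (frobTrace W (w.under (𝓞 K))) (nm (w.under (𝓞 K))) (rdeg K w))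
    (nm (w.under (𝓞 K)) ^ rdeg K w) s n

theorem lg_summable {W : WeierstrassCurve (𝓞 K)} {w : HeightOneSpectrum (𝓞 F)}
    (h6 : (6 : 𝓞 K) ∉ (w.under (𝓞 K)).asIdeal) (hΔ : W.Δ ∉ (w.under (𝓞 K)).asIdeal) {s : ℂ}
    (hs : 1 / 2 < s.re) :
    Summable (tm (powerSum (frobTrace W (w.under (𝓞 K))) (nm (w.under (𝓞 K))) (rdeg K w))
      (nm (w.under (𝓞 K)) ^ rdeg K w) s) ∧
    Complex.exp (lg W w s) =
      (1 - (((powerSum (frobTrace W (w.under (𝓞 K))) (nm (w.under (𝓞 K))) (rdeg K w) : ℤ) : ℂ) *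
        ((nm (w.under (𝓞 K)) ^ rdeg K w : ℕ) : ℂ) ^ (-s) -
        1 * ((nm (w.under (𝓞 K)) ^ rdeg K w : ℕ) : ℂ) ^ (1 - 2 * s)))⁻¹ := by
  obtain ⟨α, β, hα, hβ, h1, h2⟩ := exists_alpha h6 hΔ
  set v := w.under (𝓞 K) with hv
  set d := rdeg K w with hd
  have hd0 : 0 < d := rdeg_pos w
  have hq2 := two_le_nm v
  have hqp : (0 : ℝ) < nm v := by exact_mod_cast (by omega : 0 < nm v)
  have h3 : α ^ d + β ^ d = ((powerSum (frobTrace W v) (nm v) d : ℤ) : ℂ) :=
    (powerSum_roots h1 h2 d).symm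
  have h4 : α ^ d * β ^ d = (((nm v ^ d : ℕ) : ℤ) : ℂ) := by
    rw [← mul_pow, h2]
    push_cast
    rfl
  have hq0 : nm v ^ d ≠ 0 := pow_ne_zero _ (by omega)
  have hlt : ∀ γ : ℂ, ‖γ‖ = (nm v : ℝ) ^ (1 / 2 : ℝ) →
      ‖γ ^ d * ((nm v ^ d : ℕ) : ℂ) ^ (-s)‖ < 1 := by
    intro γ hγ
    rw [norm_mul, norm_pow, hγ, Complex.norm_natCast_cpow_of_pos (Nat.pos_of_ne_zero hq0),
      Complex.neg_re, Nat.cast_pow, ← Real.rpow_natCast ((nm v : ℝ)) d, ← Real.rpow_mul hqp.le,
      mul_comm (d : ℝ), Real.rpow_mul hqp.le, Real.rpow_natCast, ← mul_pow, ← Real.rpow_add hqp]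
    refine pow_lt_one₀ (Real.rpow_nonneg hqp.le _) ?_ hd0.ne'
    refine Real.rpow_lt_one_of_one_lt_of_neg ?_ (by linarith)
    have : (2 : ℝ) ≤ nm v := by exact_mod_cast hq2
    linarith
  exact ⟨(hasSum_tm hq0 h3 h4 (hlt α hα) (hlt β hβ)).summable,
    exp_tsum_tm hq0 h3 h4 (hlt α hα) (hlt β hβ)⟩

/-- the sum of the logarithms above a good prime -/
theorem sum_lg {W : WeierstrassCurve (𝓞 K)} {v : HeightOneSpectrum (𝓞 K)}
    (h6 : (6 : 𝓞 K) ∉ v.asIdeal) (hΔ : W.Δ ∉ v.asIdeal) {s : ℂ} (hs : 1 / 2 < s.re) :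
    HasSum (fun n => ((∑ w ∈ above F v, if rdeg K w ∣ n + 1 then rdeg K w else 0 : ℕ) : ℂ) *
      tm (frobTrace W v) (nm v) s n) (∑ w ∈ above F v, lg W w s) := by
  obtain ⟨α, β, -, -, h1, h2⟩ := exists_alpha h6 hΔ
  have h3 : HasSum (fun n => ∑ w ∈ above F v, (if rdeg K w ∣ n + 1 then (rdeg K w : ℂ) else 0) *
      tm (frobTrace W v) (nm v) s n) (∑ w ∈ above F v, lg W w s) := by
    refine hasSum_sum fun w hw => ?_
    have hwv := mem_above.1 hw
    have h4 := (lg_summable (W := W) (w := w) (by rw [hwv]; exact h6) (by rw [hwv]; exact hΔ)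
      hs).1.hasSum
    have h5 : lg W w s = ∑' n, tm (powerSum (frobTrace W (w.under (𝓞 K))) (nm (w.under (𝓞 K)))
      (rdeg K w)) (nm (w.under (𝓞 K)) ^ rdeg K w) s n := rfl
    rw [← h5, hwv] at h4
    exact hasSum_ext h1 h2 (rdeg_pos w) h4
  have e : (fun n => ((∑ w ∈ above F v, if rdeg K w ∣ n + 1 then rdeg K w else 0 : ℕ) : ℂ) *
      tm (frobTrace W v) (nm v) s n) = fun n => ∑ w ∈ above F v,
        (if rdeg K w ∣ n + 1 then (rdeg K w : ℂ) else 0) * tm (frobTrace W v) (nm v) s n := by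
    funext n
    rw [Nat.cast_sum, Finset.sum_mul]
    refine Finset.sum_congr rfl fun w _ => ?_
    split_ifs <;> simp
  rw [e]
  exact h3

theorem norm_tm_ext {W : WeierstrassCurve (𝓞 K)} {w : HeightOneSpectrum (𝓞 F)}
    (h6 : (6 : 𝓞 K) ∉ (w.under (𝓞 K)).asIdeal) (hΔ : W.Δ ∉ (w.under (𝓞 K)).asIdeal) (s : ℂ)
    (n : ℕ) :
    ‖tm (powerSum (frobTrace W (w.under (𝓞 K))) (nm (w.under (𝓞 K))) (rdeg K w))
      (nm (w.under (𝓞 K)) ^ rdeg K w) s n‖ ≤ 2 * ((nm w : ℝ) ^ (-(s.re - 1 / 2))) ^ (n + 1) := by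
  obtain ⟨α, β, hα, hβ, h1, h2⟩ := exists_alpha h6 hΔ
  have h5 : nm w = nm (w.under (𝓞 K)) ^ rdeg K w := absNorm_rdeg w
  set v := w.under (𝓞 K) with hv
  set d := rdeg K w with hd
  have hqp : (0 : ℝ) < nm v := by exact_mod_cast (by have := two_le_nm v; omega : 0 < nm v)
  have h3 : α ^ d + β ^ d = ((powerSum (frobTrace W v) (nm v) d : ℤ) : ℂ) :=
    (powerSum_roots h1 h2 d).symm
  have h4 : α ^ d * β ^ d = (((nm v ^ d : ℕ) : ℤ) : ℂ) := by
    rw [← mul_pow, h2]
    push_cast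
    rfl
  have hn : ∀ γ : ℂ, ‖γ‖ = (nm v : ℝ) ^ (1 / 2 : ℝ) →
      ‖γ ^ d‖ = ((nm v ^ d : ℕ) : ℝ) ^ (1 / 2 : ℝ) := by
    intro γ hγ
    rw [norm_pow, hγ, Nat.cast_pow, ← Real.rpow_natCast ((nm v : ℝ)) d, ← Real.rpow_mul hqp.le,
      mul_comm (d : ℝ), Real.rpow_mul hqp.le, Real.rpow_natCast]
  rw [h5]
  exact norm_tm_le (by rw [← h5]; exact two_le_nm w) h3 h4 (hn α hα) (hn β hβ) s n

end

section
variable {K F M : Type} [Field K] [NumberField K] [Field F] [NumberField F] [Field M] [NumberField M]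
  [Algebra K F] [Algebra K M] [Algebra F M] [IsScalarTower K F M] [IsGalois K M]

open scoped Classical in
/-- the chosen logarithm of the Euler factor -/
noncomputable def lgg (M : Type) [Field M] [NumberField M] [Algebra K M]
    (W : WeierstrassCurve (𝓞 K)) (w : HeightOneSpectrum (𝓞 F)) (s : ℂ) : ℂ :=
  if Good M W (w.under (𝓞 K)) then lg W w s else 0

theorem summable_lgg (W : WeierstrassCurve (𝓞 K)) {s : ℂ} (hs : 3 / 2 < s.re) :
    Summable fun w : HeightOneSpectrum (𝓞 F) => lgg M W w s := by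
  classical
  have h1 : Summable fun x : HeightOneSpectrum (𝓞 F) × ℕ => if Good M W (x.1.under (𝓞 K)) then
      tm (powerSum (frobTrace W (x.1.under (𝓞 K))) (nm (x.1.under (𝓞 K))) (rdeg K x.1))
      (nm (x.1.under (𝓞 K)) ^ rdeg K x.1) s x.2 else 0 := by
    refine Summable.of_norm_bounded ((summable_geo (K := F) (δ := s.re - 1 / 2)
      (by linarith)).mul_left 2) fun x => ?_
    split_ifs with h
    · exact norm_tm_ext h.1 h.2.1 s x.2
    · rw [norm_zero]
      positivity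
  refine h1.prod.congr fun w => ?_
  unfold lgg lg
  split_ifs
  · rfl
  · simp

theorem hasSum_lgg (W : WeierstrassCurve (𝓞 K)) {s : ℂ} (hs : 3 / 2 < s.re) :
    ∑' w : HeightOneSpectrum (𝓞 F), lgg M W w s =
      ∑' x, term M W (induced (fixer K F M) 1) s x := by
  classical
  have h1 := hasSum_above (K := K) (summable_lgg (F := F) (M := M) W hs)
  have h2 := (summable_term W (induced (fixer K F M) 1) hs).hasSum.prod_fiberwise
    (g := fun v => ∑ w ∈ above F v, lgg M W w s) ?_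
  · exact h1.unique h2
  intro v
  by_cases hv : Good M W v
  · have h3 := sum_lg (F := F) (W := W) hv.1 hv.2.1 (s := s) (by linarith)
    have e1 : ∑ w ∈ above F v, lgg M W w s = ∑ w ∈ above F v, lg W w s := by
      refine Finset.sum_congr rfl fun w hw => ?_
      unfold lgg
      rw [if_pos]
      rw [mem_above.1 hw]
      exact hv
    rw [e1]
    have e2 : (fun n => term M W (induced (fixer K F M) 1) s (v, n)) =
        fun n => ((∑ w ∈ above F v, if rdeg K w ∣ n + 1 then rdeg K w else 0 : ℕ) : ℂ) *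
          tm (frobTrace W v) (nm v) s n := by
      funext n
      rw [term_eq, if_pos hv, induced_one_eq, card_fixed hv.2.2 (frob_spec v)]
    rw [e2]
    exact h3
  · have e1 : ∑ w ∈ above F v, lgg M W w s = 0 := by
      refine Finset.sum_eq_zero fun w hw => ?_
      unfold lgg
      rw [if_neg]
      rw [mem_above.1 hw]
      exact hv
    rw [e1]
    have e2 : (fun n => term M W (induced (fixer K F M) 1) s (v, n)) = fun _ => 0 := by
      funext n
      rw [term_eq, if_neg hv]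
    rw [e2]
    exact hasSum_zero

/-- **The L-function of `E` over the field `F` between `K` and `M`.** -/
theorem LS_eq {E : WeierstrassCurve K} (hE : E.IsElliptic) {W : WeierstrassCurve (𝓞 K)}
    (hW : IsModel E W) {V : HeightOneSpectrum (𝓞 F) → WeierstrassCurve (𝓞 F)}
    (hV : MinimalModels (E.map (algebraMap K F)) V) {s : ℂ} (hs : 3 / 2 < s.re) :
    LS V s = (∏ v ∈ (bad_finite (M := M) (model_Δ hE hW)).toFinset,
      ∏ w ∈ above F v, (1 - zz V w s)⁻¹) * twistedL M W (induced (fixer K F M) 1) s := by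
  classical
  have hEF : (E.map (algebraMap K F)).IsElliptic := inferInstance
  let ρ : HeightOneSpectrum (𝓞 F) → ℂ := fun w =>
    if Good M W (w.under (𝓞 K)) then 0 else ell V w s
  have hρ : Summable ρ := by
    have h := (summable_ell hEF hV hs).indicator {w | ¬ Good M W (w.under (𝓞 K))}
    refine h.congr fun w => ?_
    rw [Set.indicator_apply]
    by_cases hg : Good M W (w.under (𝓞 K))
    · simp [ρ, hg]
    · simp [ρ, hg]
  have hsum := (summable_lgg (F := F) (M := M) W hs).add hρ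
  have hexp : ∀ w, Complex.exp (lgg M W w s + ρ w) = (1 - zz V w s)⁻¹ := by
    intro w
    by_cases hg : Good M W (w.under (𝓞 K))
    · have h1 : ρ w = 0 := if_pos hg
      have h2 : lgg M W w s = lg W w s := if_pos hg
      rw [h1, h2, add_zero, (lg_summable hg.1 hg.2.1 (by linarith)).2]
      congr 2
      have hWF : IsModel (E.map (algebraMap K F)) (W.map (algebraMap (𝓞 K) (𝓞 F))) := isModel_map hW
      have h' : 6 * (W.map (algebraMap (𝓞 K) (𝓞 F))).Δ ∉ w.asIdeal := by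
        rw [WeierstrassCurve.map_Δ]
        intro h1
        have h2 : algebraMap (𝓞 K) (𝓞 F) (6 * W.Δ) ∈ w.asIdeal := by
          rwa [map_mul, map_ofNat]
        rcases (w.under (𝓞 K)).isPrime.mem_or_mem
          (h2 : 6 * W.Δ ∈ (w.under (𝓞 K)).asIdeal) with h | h
        · exact hg.1 h
        · exact hg.2.1 h
      obtain ⟨_, _, hVΔ⟩ := good_of_model hV hWF h'
      have h5 : nm w = nm (w.under (𝓞 K)) ^ rdeg K w := absNorm_rdeg w
      unfold zz
      rw [if_neg hVΔ, trace_model hW hV hg.1 hg.2.1, h5]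
    · have h1 : ρ w = ell V w s := if_neg hg
      have h2 : lgg M W w s = 0 := if_neg hg
      rw [h1, h2, zero_add, exp_ell V w hs]
  have h1 : LS V s = Complex.exp (∑' w, (lgg M W w s + ρ w)) := by
    rw [LSeries_eq, ← hsum.hasSum.cexp.tprod_eq]
    exact tprod_congr fun w => (hexp w).symm
  rw [h1, (summable_lgg (F := F) (M := M) W hs).tsum_add hρ, Complex.exp_add, mul_comm,
    hasSum_lgg W hs]
  congr 1
  have h2 : ∑' w, ρ w = ∑ v ∈ (bad_finite (M := M) (model_Δ hE hW)).toFinset,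
      ∑ w ∈ above F v, ell V w s := by
    refine (hasSum_above (K := K) hρ).unique ?_
    have h3 : HasSum (fun v : HeightOneSpectrum (𝓞 K) => ∑ w ∈ above F v, ρ w)
        (∑ v ∈ (bad_finite (M := M) (model_Δ hE hW)).toFinset, ∑ w ∈ above F v, ρ w) :=
      hasSum_sum_of_ne_finset_zero (by
        intro v hv
        rw [Set.Finite.mem_toFinset, Set.mem_ofPred_eq, not_not] at hv
        refine Finset.sum_eq_zero fun w hw => ?_
        have hw' := mem_above.1 hw
        exact if_pos (by rw [hw']; exact hv))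
    convert h3 using 1
    refine Finset.sum_congr rfl fun v hv => Finset.sum_congr rfl fun w hw => ?_
    rw [Set.Finite.mem_toFinset, Set.mem_ofPred_eq] at hv
    have hw' := mem_above.1 hw
    exact (if_neg (by rw [hw']; exact hv)).symm
  rw [h2, Complex.exp_sum]
  refine Finset.prod_congr rfl fun v _ => ?_
  rw [Complex.exp_sum]
  exact Finset.prod_congr rfl fun w _ => exp_ell V w hs

end

end Pool.Agent.Q92.RT
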