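import Pool.Agent.Q92.RT.Def

/-! Convergence of the twisted L-functions. -/

set_option autoImplicit false
set_option linter.unusedSectionVars false

namespace Pool.Agent.Q92.RT

open NumberField IsDedekindDomain Filter Pool.Agent.H341R2 Pool.Agent.H341R2.EC
  Pool.Agent.H921R2.TatePole Pool.Agent.W353.NF Pool.Agent.Q5.BR

/-- the local term -/
noncomputable def tm (a : ℤ) (q : ℕ) (s : ℂ) (n : ℕ) : ℂ :=
  ((powerSum a q (n + 1) : ℤ) : ℂ) / (((n + 1 : ℕ) : ℂ) * (q : ℂ) ^ (((n + 1 : ℕ) : ℂ) * s))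

section
variable {a : ℤ} {q : ℕ} {α β : ℂ}

theorem cpow_succ_mul (q : ℕ) (s : ℂ) (n : ℕ) :
    (q : ℂ) ^ (((n + 1 : ℕ) : ℂ) * s) = (((q : ℂ) ^ (-s)) ^ (n + 1))⁻¹ := by
  rw [← Complex.cpow_nat_mul, ← Complex.cpow_neg]
  congr 1
  ring

theorem tm_eq (hq : q ≠ 0) (h1 : α + β = (a : ℂ)) (h2 : α * β = ((q : ℤ) : ℂ)) (s : ℂ) (n : ℕ) :
    tm a q s n = (α * (q : ℂ) ^ (-s)) ^ (n + 1) / ((n + 1 : ℕ) : ℂ) +
      (β * (q : ℂ) ^ (-s)) ^ (n + 1) / ((n + 1 : ℕ) : ℂ) := by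
  unfold tm
  rw [powerSum_roots h1 h2, cpow_succ_mul]
  have hn : ((n + 1 : ℕ) : ℂ) ≠ 0 := by exact_mod_cast Nat.succ_ne_zero n
  have hx : ((q : ℂ) ^ (-s)) ^ (n + 1) ≠ 0 := by
    apply pow_ne_zero
    rw [Complex.cpow_def_of_ne_zero (by exact_mod_cast hq)]
    exact Complex.exp_ne_zero _
  rw [mul_pow, mul_pow]
  field_simp

theorem hasSum_log {z : ℂ} (hz : ‖z‖ < 1) :
    HasSum (fun n : ℕ => z ^ (n + 1) / ((n + 1 : ℕ) : ℂ)) (-Complex.log (1 - z)) := by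
  have h := Complex.hasSum_taylorSeries_neg_log hz
  have h2 := (hasSum_nat_add_iff' (f := fun n : ℕ => z ^ n / (n : ℂ)) 1).2 h
  simpa using h2

theorem hasSum_tm (hq : q ≠ 0) (h1 : α + β = (a : ℂ)) (h2 : α * β = ((q : ℤ) : ℂ)) {s : ℂ}
    (hα : ‖α * (q : ℂ) ^ (-s)‖ < 1) (hβ : ‖β * (q : ℂ) ^ (-s)‖ < 1) :
    HasSum (tm a q s) (-Complex.log (1 - α * (q : ℂ) ^ (-s)) +
      -Complex.log (1 - β * (q : ℂ) ^ (-s))) := by
  have h := (hasSum_log hα).add (hasSum_log hβ)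
  have e : tm a q s = fun n => (α * (q : ℂ) ^ (-s)) ^ (n + 1) / ((n + 1 : ℕ) : ℂ) +
      (β * (q : ℂ) ^ (-s)) ^ (n + 1) / ((n + 1 : ℕ) : ℂ) := funext fun n => tm_eq hq h1 h2 s n
  rw [e]
  exact h

theorem one_sub_ne {z : ℂ} (hz : ‖z‖ < 1) : 1 - z ≠ 0 := by
  intro h
  rw [← sub_eq_zero.1 h, norm_one] at hz
  exact lt_irrefl _ hz

theorem exp_tsum_tm (hq : q ≠ 0) (h1 : α + β = (a : ℂ)) (h2 : α * β = ((q : ℤ) : ℂ)) {s : ℂ}
    (hα : ‖α * (q : ℂ) ^ (-s)‖ < 1) (hβ : ‖β * (q : ℂ) ^ (-s)‖ < 1) :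
    Complex.exp (∑' n, tm a q s n) =
      (1 - ((a : ℂ) * (q : ℂ) ^ (-s) - 1 * (q : ℂ) ^ (1 - 2 * s)))⁻¹ := by
  rw [(hasSum_tm hq h1 h2 hα hβ).tsum_eq, Complex.exp_add, Complex.exp_neg, Complex.exp_neg,
    Complex.exp_log (one_sub_ne hα), Complex.exp_log (one_sub_ne hβ), ← mul_inv]
  congr 1
  have hq0 : (q : ℂ) ≠ 0 := by exact_mod_cast hq
  have h3 : (q : ℂ) ^ (1 - 2 * s) = (q : ℂ) * ((q : ℂ) ^ (-s)) ^ 2 := by
    rw [← Complex.cpow_nat_mul, sub_eq_add_neg, Complex.cpow_add _ _ hq0, Complex.cpow_one]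
    congr 2
    push_cast
    ring
  rw [h3, ← h1]
  have h4 : α * β = (q : ℂ) := by rw [h2]; simp
  rw [← h4]
  ring

theorem norm_tm_le (hq : 2 ≤ q) (h1 : α + β = (a : ℂ)) (h2 : α * β = ((q : ℤ) : ℂ))
    (hα : ‖α‖ = (q : ℝ) ^ (1 / 2 : ℝ)) (hβ : ‖β‖ = (q : ℝ) ^ (1 / 2 : ℝ)) (s : ℂ) (n : ℕ) :
    ‖tm a q s n‖ ≤ 2 * ((q : ℝ) ^ (-(s.re - 1 / 2))) ^ (n + 1) := by
  have hq0 : q ≠ 0 := by omega
  have hqp : (0 : ℝ) < q := by exact_mod_cast (by omega : 0 < q)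
  have hnorm : ∀ γ : ℂ, ‖γ‖ = (q : ℝ) ^ (1 / 2 : ℝ) →
      ‖(γ * (q : ℂ) ^ (-s)) ^ (n + 1) / ((n + 1 : ℕ) : ℂ)‖ ≤
        ((q : ℝ) ^ (-(s.re - 1 / 2))) ^ (n + 1) := by
    intro γ hγ
    rw [norm_div, norm_pow, norm_mul, hγ, Complex.norm_natCast_cpow_of_pos (by omega),
      Complex.neg_re, ← Real.rpow_add hqp, Complex.norm_natCast]
    have e : (1 / 2 + -s.re : ℝ) = -(s.re - 1 / 2) := by ring
    rw [e]
    refine div_le_self (by positivity) ?_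
    exact_mod_cast Nat.succ_le_succ (Nat.zero_le n)
  rw [tm_eq hq0 h1 h2]
  refine (norm_add_le _ _).trans ?_
  linarith [hnorm α hα, hnorm β hβ]

/-- power sums of the powers of the roots -/
theorem powerSum_powerSum (h1 : α + β = (a : ℂ)) (h2 : α * β = ((q : ℤ) : ℂ)) (d n : ℕ) :
    powerSum (powerSum a q d) ((q ^ d : ℕ) : ℤ) n = powerSum a q (d * n) := by
  have h3 : α ^ d + β ^ d = ((powerSum a q d : ℤ) : ℂ) := (powerSum_roots h1 h2 d).symm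
  have h4 : α ^ d * β ^ d = (((q ^ d : ℕ) : ℤ) : ℂ) := by
    rw [← mul_pow, h2]
    push_cast
    rfl
  have h5 : ((powerSum (powerSum a q d) ((q ^ d : ℕ) : ℤ) n : ℤ) : ℂ) =
      ((powerSum a q (d * n) : ℤ) : ℂ) := by
    rw [powerSum_roots h3 h4, powerSum_roots h1 h2, pow_mul, pow_mul]
  exact_mod_cast h5

theorem tm_ext (h1 : α + β = (a : ℂ)) (h2 : α * β = ((q : ℤ) : ℂ)) {d : ℕ} (hd : 0 < d) (s : ℂ)
    (m : ℕ) : tm (powerSum a q d) (q ^ d) s m = (d : ℂ) * tm a q s (d * (m + 1) - 1) := by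
  unfold tm
  have h3 : d * (m + 1) - 1 + 1 = d * (m + 1) := Nat.sub_add_cancel (Nat.mul_pos hd m.succ_pos)
  rw [powerSum_powerSum h1 h2, h3]
  have hdc : (d : ℂ) ≠ 0 := by exact_mod_cast hd.ne'
  have h4 : (((q ^ d : ℕ) : ℂ)) ^ (((m + 1 : ℕ) : ℂ) * s) =
      (q : ℂ) ^ (((d * (m + 1) : ℕ) : ℂ) * s) := by
    rw [Nat.cast_pow, ← Complex.natCast_cpow_natCast_mul]
    congr 1
    push_cast
    ring
  rw [h4]
  have hm : ((m + 1 : ℕ) : ℂ) ≠ 0 := by exact_mod_cast m.succ_ne_zero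
  rw [Nat.cast_mul d (m + 1)]
  by_cases hQ : (q : ℂ) ^ ((((d : ℕ) : ℂ) * ((m + 1 : ℕ) : ℂ)) * s) = 0
  · rw [hQ]
    simp
  · field_simp

theorem hasSum_ext (h1 : α + β = (a : ℂ)) (h2 : α * β = ((q : ℤ) : ℂ)) {d : ℕ} (hd : 0 < d) {s S : ℂ}
    (h : HasSum (tm (powerSum a q d) (q ^ d) s) S) :
    HasSum (fun n => (if d ∣ n + 1 then (d : ℂ) else 0) * tm a q s n) S := by
  have hinj : Function.Injective fun m : ℕ => d * (m + 1) - 1 := by
    intro m m' hmm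
    have h3 : d * (m + 1) - 1 + 1 = d * (m + 1) := Nat.sub_add_cancel (Nat.mul_pos hd m.succ_pos)
    have h4 : d * (m' + 1) - 1 + 1 = d * (m' + 1) :=
      Nat.sub_add_cancel (Nat.mul_pos hd m'.succ_pos)
    have h5 : d * (m + 1) = d * (m' + 1) := by
      rw [← h3, ← h4]
      exact congrArg (· + 1) hmm
    have := Nat.eq_of_mul_eq_mul_left hd h5
    omega
  rw [← hinj.hasSum_iff]
  · have e : (fun n => (if d ∣ n + 1 then (d : ℂ) else 0) * tm a q s n) ∘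
        (fun m : ℕ => d * (m + 1) - 1) = tm (powerSum a q d) (q ^ d) s := by
      funext m
      simp only [Function.comp]
      have h3 : d * (m + 1) - 1 + 1 = d * (m + 1) :=
        Nat.sub_add_cancel (Nat.mul_pos hd m.succ_pos)
      rw [h3, if_pos (Dvd.intro _ rfl), tm_ext h1 h2 hd]
    rw [e]
    exact h
  · intro n hn
    have : ¬ d ∣ n + 1 := by
      rintro ⟨c, hc⟩
      apply hn
      have hc0 : c ≠ 0 := by
        rintro rfl
        omega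
      obtain ⟨m, rfl⟩ := Nat.exists_eq_succ_of_ne_zero hc0
      refine ⟨m, ?_⟩
      change d * (m + 1) - 1 = n
      rw [← Nat.succ_eq_add_one m, ← hc]
      omega
    simp only [if_neg this, zero_mul]

end

section
variable {K : Type} [Field K] [NumberField K]

theorem rpow_lt_one {v : HeightOneSpectrum (𝓞 K)} {δ : ℝ} (hδ : 0 < δ) :
    (nm v : ℝ) ^ (-δ) < 1 := by
  have h : (2 : ℝ) ≤ nm v := by exact_mod_cast two_le_nm v
  exact Real.rpow_lt_one_of_one_lt_of_neg (by linarith) (by linarith)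

theorem summable_geo {δ : ℝ} (hδ : 1 < δ) :
    Summable fun x : HeightOneSpectrum (𝓞 K) × ℕ => ((nm x.1 : ℝ) ^ (-δ)) ^ (x.2 + 1) := by
  have hpos : ∀ v : HeightOneSpectrum (𝓞 K), (0 : ℝ) < (nm v : ℝ) ^ (-δ) := fun v =>
    Real.rpow_pos_of_pos (by exact_mod_cast (by have := two_le_nm v; omega : 0 < nm v)) _
  rw [summable_prod_of_nonneg (fun x => pow_nonneg (hpos x.1).le _)]
  have hg : ∀ v : HeightOneSpectrum (𝓞 K), HasSum (fun n : ℕ => ((nm v : ℝ) ^ (-δ)) ^ (n + 1))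
      ((nm v : ℝ) ^ (-δ) * (1 - (nm v : ℝ) ^ (-δ))⁻¹) := by
    intro v
    have h1 := (hasSum_geometric_of_lt_one (hpos v).le (rpow_lt_one (v := v)
      (by linarith : (0 : ℝ) < δ))).mul_left ((nm v : ℝ) ^ (-δ))
    simpa only [pow_succ'] using h1
  refine ⟨fun v => (hg v).summable, ?_⟩
  simp only [fun v => (hg v).tsum_eq]
  refine Summable.of_nonneg_of_le (fun v => mul_nonneg (hpos v).le
    (inv_nonneg.2 (sub_nonneg.2 (rpow_lt_one (by linarith)).le))) (fun v => ?_)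
    ((nm_summable (K := K) hδ).mul_right 2)
  refine mul_le_mul_of_nonneg_left ?_ (hpos v).le
  have h2 : (nm v : ℝ) ^ (-δ) ≤ 1 / 2 := by
    have h : (2 : ℝ) ≤ nm v := by exact_mod_cast two_le_nm v
    calc (nm v : ℝ) ^ (-δ) ≤ (nm v : ℝ) ^ (-1 : ℝ) :=
          Real.rpow_le_rpow_of_exponent_le (by linarith) (by linarith)
      _ = (nm v : ℝ)⁻¹ := Real.rpow_neg_one _
      _ ≤ 1 / 2 := by rw [one_div]; exact inv_anti₀ (by norm_num) h
  have h3 : (1 / 2 : ℝ) ≤ 1 - (nm v : ℝ) ^ (-δ) := by linarith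
  calc (1 - (nm v : ℝ) ^ (-δ))⁻¹ ≤ (1 / 2 : ℝ)⁻¹ := inv_anti₀ (by norm_num) h3
    _ = 2 := by norm_num

end

section
variable {K : Type} [Field K] [NumberField K] {M : Type} [Field M] [NumberField M] [Algebra K M]

theorem term_eq (W : WeierstrassCurve (𝓞 K)) (φ : (M ≃ₐ[K] M) → ℂ) (s : ℂ)
    (x : HeightOneSpectrum (𝓞 K) × ℕ) [Decidable (Good M W x.1)] :
    term M W φ s x = if Good M W x.1 then φ (frob M x.1 ^ (x.2 + 1)) *
      tm (frobTrace W x.1) (nm x.1) s x.2 else 0 := by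
  unfold term tm
  split_ifs
  · rw [mul_div_assoc]
    rfl
  · rfl

theorem exists_bound (φ : (M ≃ₐ[K] M) → ℂ) : ∃ C : ℝ, 0 ≤ C ∧ ∀ g, ‖φ g‖ ≤ C := by
  have : Fintype (M ≃ₐ[K] M) := Fintype.ofFinite _
  exact ⟨∑ g, ‖φ g‖, Finset.sum_nonneg fun g _ => norm_nonneg _, fun g =>
    Finset.single_le_sum (f := fun g => ‖φ g‖) (fun g _ => norm_nonneg _) (Finset.mem_univ g)⟩

theorem summable_term (W : WeierstrassCurve (𝓞 K)) (φ : (M ≃ₐ[K] M) → ℂ) {s : ℂ}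
    (hs : 3 / 2 < s.re) : Summable (term M W φ s) := by
  classical
  obtain ⟨C, hC0, hC⟩ := exists_bound φ
  refine Summable.of_norm_bounded ((summable_geo (K := K) (δ := s.re - 1 / 2)
    (by linarith)).mul_left (C * 2)) fun x => ?_
  rw [term_eq]
  have hpos : (0 : ℝ) < (nm x.1 : ℝ) ^ (-(s.re - 1 / 2)) :=
    Real.rpow_pos_of_pos (by exact_mod_cast (by have := two_le_nm x.1; omega : 0 < nm x.1)) _
  split_ifs with h
  · obtain ⟨α, β, hα, hβ, h1, h2⟩ := exists_alpha h.1 h.2.1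
    rw [norm_mul, mul_assoc]
    exact mul_le_mul (hC _) (norm_tm_le (two_le_nm x.1) h1 h2 hα hβ s x.2) (norm_nonneg _) hC0
  · rw [norm_zero]
    positivity

theorem twistedL_ne_zero (W : WeierstrassCurve (𝓞 K)) (φ : (M ≃ₐ[K] M) → ℂ) (s : ℂ) :
    twistedL M W φ s ≠ 0 := Complex.exp_ne_zero _

theorem term_sum (W : WeierstrassCurve (𝓞 K)) {ι : Type*} (T : Finset ι) (m : ι → ℂ)
    (φ : ι → (M ≃ₐ[K] M) → ℂ) (s : ℂ) (x : HeightOneSpectrum (𝓞 K) × ℕ) :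
    term M W (fun g => ∑ i ∈ T, m i * φ i g) s x = ∑ i ∈ T, m i * term M W (φ i) s x := by
  classical
  simp only [term_eq]
  split_ifs
  · rw [Finset.sum_mul]
    exact Finset.sum_congr rfl fun i _ => by ring
  · simp

/-- the L-function of a sum -/
theorem twistedL_sum (W : WeierstrassCurve (𝓞 K)) {ι : Type*} (T : Finset ι) (m : ι → ℕ)
    (φ : ι → (M ≃ₐ[K] M) → ℂ) {s : ℂ} (hs : 3 / 2 < s.re) :
    twistedL M W (fun g => ∑ i ∈ T, (m i : ℂ) * φ i g) s = ∏ i ∈ T, twistedL M W (φ i) s ^ m i := by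
  unfold twistedL
  have h1 : term M W (fun g => ∑ i ∈ T, (m i : ℂ) * φ i g) s = fun x =>
      ∑ i ∈ T, (m i : ℂ) * term M W (φ i) s x := funext fun x => term_sum W T _ φ s x
  rw [h1, Summable.tsum_finsetSum (fun i _ => (summable_term W (φ i) hs).mul_left _),
    Complex.exp_sum]
  refine Finset.prod_congr rfl fun i _ => ?_
  rw [tsum_mul_left, ← Complex.exp_nat_mul]

end

end Pool.Agent.Q92.RT
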