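import Pool.Agent.H271R3.RC2b
import Pool.Agent.H82R3.EK.FF
import Pool.Agent.H341R2.NF.ECCount

/-! The number of points of an elliptic curve over the extensions of a finite field. -/

set_option autoImplicit false
set_option linter.unusedSectionVars false

namespace Pool.Agent.Q92.RT

open Polynomial Finset
open Pool.Agent.H341R2.Sharp Pool.Agent.H341R2.EC Pool.Agent.H271R3.RC
open Pool.Agent.H82R3.EK (luc luc_eq)

section
variable {F : Type*} [Field F] [Fintype F] [DecidableEq F]

theorem not_sq {f : F[X]} (hd : f.natDegree = 3) (c : F) (h : F[X]) : f ≠ C c * h ^ 2 := by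
  intro he
  have h1 := congrArg natDegree he
  rw [hd] at h1
  have hc : c ≠ 0 := by
    rintro rfl
    rw [map_zero, zero_mul, natDegree_zero] at h1
    omega
  rw [natDegree_C_mul hc, natDegree_pow] at h1
  omega

theorem A_high (hF : ringChar F ≠ 2) {f : F[X]} (hf : f.Monic) (hd : f.natDegree = 3) (n : ℕ)
    (hn : 3 ≤ n) : A f n = 0 := by
  obtain ⟨r, hr, hl⟩ := exists_r hF hf (by rw [hd]; norm_num) (not_sq hd)
  exact A_eq_zero f r hf hr hl n (by rw [hd]; exact hn)

theorem A_two (hF : ringChar F ≠ 2) {f : F[X]} (hf : f.Monic) (hs : f.Separable)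
    (hd : f.natDegree = 3) : A f 2 = Fintype.card F := by
  have h := top_odd hF hf hs.squarefree 1 (by rw [hd])
  rw [pow_one] at h
  exact h

theorem T_luc (hF : ringChar F ≠ 2) {f : F[X]} (hf : f.Monic) (hs : f.Separable)
    (hd : f.natDegree = 3) : ∀ n : ℕ,
    T f (n + 1) = - luc (- T f 1) (Fintype.card F) (n + 1)
  | 0 => by simp [luc]
  | 1 => by
    have h1 := n_mul_A f 1
    have h2 := n_mul_A f 2
    rw [Finset.sum_Icc_succ_top (by norm_num), Finset.Icc_self, Finset.sum_singleton,
      A_two hF hf hs hd] at h2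
    rw [Finset.Icc_self, Finset.sum_singleton] at h1
    norm_num [A_zero] at h1 h2
    rw [h1] at h2
    simp only [luc]
    linear_combination -h2
  | n + 2 => by
    have h1 := n_mul_A f 1
    rw [Finset.Icc_self, Finset.sum_singleton] at h1
    norm_num [A_zero] at h1
    have h2 := n_mul_A f (n + 3)
    rw [A_high hF hf hd _ (by omega), mul_zero] at h2
    have h3 : ∑ m ∈ Icc 1 (n + 3), A f (n + 3 - m) * T f m =
        A f 0 * T f (n + 3) + A f 1 * T f (n + 2) + A f 2 * T f (n + 1) := by
      rw [Finset.sum_Icc_succ_top (by omega), Finset.sum_Icc_succ_top (by omega),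
        Finset.sum_Icc_succ_top (by omega)]
      have h4 : ∑ m ∈ Icc 1 n, A f (n + 3 - m) * T f m = 0 := by
        apply Finset.sum_eq_zero
        intro m hm
        rw [mem_Icc] at hm
        rw [A_high hF hf hd _ (by omega), zero_mul]
      rw [h4]
      have e1 : n + 3 - (n + 1) = 2 := by omega
      have e2 : n + 3 - (n + 1 + 1) = 1 := by omega
      have e3 : n + 3 - (n + 2 + 1) = 0 := by omega
      rw [e1, e2, e3]
      ring
    rw [h3, A_zero, h1, A_two hF hf hs hd, T_luc hF hf hs hd n, T_luc hF hf hs hd (n + 1)] at h2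
    have e : luc (- T f 1) (Fintype.card F) (n + 3) =
      (- T f 1) * luc (- T f 1) (Fintype.card F) (n + 2) -
      (Fintype.card F) * luc (- T f 1) (Fintype.card F) (n + 1) := rfl
    show T f (n + 3) = - luc (- T f 1) (Fintype.card F) (n + 3)
    rw [e]
    linear_combination -h2

end

/-- **The trace over an extension.** -/
theorem trace_ext {k κ : Type} [Field k] [Finite k] [Field κ] [Finite κ] [Algebra k κ]
    (h6 : (6 : k) ≠ 0) (V : WeierstrassCurve k) (hΔ : V.Δ ≠ 0) :
    (Nat.card κ : ℤ) - aff (V.map (algebraMap k κ)) =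
      luc ((Nat.card k : ℤ) - aff V) (Nat.card k) (Module.finrank k κ) := by
  classical
  have : Fintype k := Fintype.ofFinite k
  have : Fintype κ := Fintype.ofFinite κ
  have h2 : (2 : k) ≠ 0 := by
    intro h; apply h6
    have : (6 : k) = 3 * 2 := by norm_num
    rw [this, h, mul_zero]
  have hk : ringChar k ≠ 2 := by
    intro h
    apply h2
    have := ringChar.Nat.cast_ringChar (R := k)
    rw [h] at this
    exact_mod_cast this
  have hc : V.c₄ ^ 3 - V.c₆ ^ 2 ≠ 0 := by
    rw [← V.c_relation]
    refine mul_ne_zero ?_ hΔ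
    have h1728 : (1728 : k) = 6 ^ 3 * 2 ^ 3 := by norm_num
    rw [h1728]
    exact mul_ne_zero (pow_ne_zero _ h6) (pow_ne_zero _ h2)
  set f := cub V.c₄ V.c₆ with hf
  have hsep : f.Separable := cub_separable h6 hc
  have hdeg : f.natDegree = 3 := cub_natDegree _ _
  have hmon : f.Monic := by
    unfold Monic leadingCoeff
    rw [hdeg, hf]
    unfold cub
    simp [coeff_X, coeff_C]
  have key : ∀ (E : Type) [Field E] [Fintype E] [Algebra k E] [DecidableEq E],
      (Fintype.card E : ℤ) - aff (V.map (algebraMap k E)) = - T f (Module.finrank k E) := by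
    intro E _ _ _ _
    have h6E : (6 : E) ≠ 0 := by
      intro h
      apply h6
      apply (algebraMap k E).injective
      rw [map_ofNat, map_zero, h]
    rw [aff_eq_short h6E, short_eq h6E, T_eq_sum (E := E) hk, WeierstrassCurve.map_c₄,
      WeierstrassCurve.map_c₆]
    have h3 : ∀ x : E, aeval x f = (cub (algebraMap k E V.c₄) (algebraMap k E V.c₆)).eval x := by
      intro x
      rw [cub_eval, hf]
      unfold cub
      simp only [map_mul, map_sub, map_pow, aeval_X, aeval_C, map_ofNat]
    have h4 : ∑ x : E, quadraticChar E (aeval x f) = ∑ x : E, quadraticChar E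
        ((cub (algebraMap k E V.c₄) (algebraMap k E V.c₆)).eval x) :=
      Finset.sum_congr rfl fun x _ => by rw [h3 x]
    rw [h4]
    ring
  have hself := key k
  rw [Module.finrank_self, Algebra.algebraMap_self, WeierstrassCurve.map_id] at hself
  rw [Nat.card_eq_fintype_card, Nat.card_eq_fintype_card, key κ, hself]
  have hpos : 0 < Module.finrank k κ := Module.finrank_pos
  obtain ⟨n, hn⟩ := Nat.exists_eq_succ_of_ne_zero hpos.ne'
  rw [hn, Nat.succ_eq_add_one, T_luc hk hmon hsep hdeg n]
  ring

end Pool.Agent.Q92.RT
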