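import Pool.Agent.Q92.RT.Fix
import Pool.Agent.Q92.RT.Loc
import Pool.Agent.Q5.BR.EC2
import Pool.Agent.W540.BE.EC

/-! The twisted L-functions of an elliptic curve: definitions and convergence. -/

set_option autoImplicit false
set_option linter.unusedSectionVars false

namespace Pool.Agent.Q92.RT

open NumberField IsDedekindDomain Filter Pool.Agent.H341R2 Pool.Agent.H341R2.EC
  Pool.Agent.H921R2.TatePole Pool.Agent.W353.NF Pool.Agent.Q5.BR
open Pool.Agent.H82R3.EK (luc luc_eq)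

/-- The number of solutions of the affine Weierstrass equation of `V` with coordinates in `R`. -/
noncomputable def affineCount {R : Type} [CommRing R] (V : WeierstrassCurve R) : ℕ :=
  Nat.card {P : R × R // P.2 ^ 2 + V.a₁ * P.1 * P.2 + V.a₃ * P.2 =
    P.1 ^ 3 + V.a₂ * P.1 ^ 2 + V.a₄ * P.1 + V.a₆}

/-- `α^j + β^j`, where `α` and `β` are the roots of `X² - a X + q`. -/
def powerSum (a q : ℤ) : ℕ → ℤ
  | 0 => 2
  | 1 => a
  | (j + 2) => a * powerSum a q (j + 1) - q * powerSum a q j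

theorem powerSum_eq (a q : ℤ) (j : ℕ) : powerSum a q j = luc a q j := by
  induction j using Nat.twoStepInduction with
  | zero => rfl
  | one => rfl
  | more j ih1 ih2 => rw [powerSum, luc, ih1, ih2]

theorem powerSum_roots {a q : ℤ} {α β : ℂ} (h1 : α + β = a) (h2 : α * β = q) (n : ℕ) :
    ((powerSum a q n : ℤ) : ℂ) = α ^ n + β ^ n := by
  rw [powerSum_eq]
  exact luc_eq h1 h2 n

section
variable {K : Type} [Field K] [NumberField K]

/-- `a_v = q_v + 1 - #E(k_v)`, `k_v` the residue field of `v`; there is one point at infinity. -/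
noncomputable def frobTrace (W : WeierstrassCurve (𝓞 K)) (v : HeightOneSpectrum (𝓞 K)) : ℤ :=
  (Ideal.absNorm v.asIdeal : ℤ) + 1 -
    ((affineCount (W.map (Ideal.Quotient.mk v.asIdeal)) : ℤ) + 1)

theorem frobTrace_eq (W : WeierstrassCurve (𝓞 K)) (v : HeightOneSpectrum (𝓞 K)) :
    frobTrace W v = (nm v : ℤ) - (aff (red v W) : ℤ) := by
  have h : frobTrace W v = (nm v : ℤ) + 1 - ((aff (red v W) : ℤ) + 1) := rfl
  rw [h]
  ring

theorem hasse_trace {W : WeierstrassCurve (𝓞 K)} {v : HeightOneSpectrum (𝓞 K)}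
    (h6 : (6 : 𝓞 K) ∉ v.asIdeal) (hΔ : W.Δ ∉ v.asIdeal) :
    |(frobTrace W v : ℝ)| ≤ 2 * Real.sqrt (nm v) := by
  classical
  have h6' : (6 : 𝓞 K ⧸ v.asIdeal) ≠ 0 := by
    have := mk_ne h6
    rwa [map_ofNat] at this
  have hΔ' : (red v W).Δ ≠ 0 := by
    unfold red
    rw [WeierstrassCurve.map_Δ]
    exact mk_ne hΔ
  have h1 := hasse h6' hΔ'
  rw [card_v] at h1
  rw [frobTrace_eq]
  push_cast
  exact h1

theorem exists_alpha {W : WeierstrassCurve (𝓞 K)} {v : HeightOneSpectrum (𝓞 K)}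
    (h6 : (6 : 𝓞 K) ∉ v.asIdeal) (hΔ : W.Δ ∉ v.asIdeal) :
    ∃ α β : ℂ, ‖α‖ = (nm v : ℝ) ^ (1 / 2 : ℝ) ∧ ‖β‖ = (nm v : ℝ) ^ (1 / 2 : ℝ) ∧
      α + β = (frobTrace W v : ℂ) ∧ α * β = ((nm v : ℤ) : ℂ) := by
  have hpos : (0 : ℝ) < nm v := by
    have := two_le_nm v
    exact_mod_cast (by omega : 0 < nm v)
  obtain ⟨α, h1, h2, h3⟩ := Pool.Agent.W540.BE.exists_roots hpos (hasse_trace h6 hΔ)
  refine ⟨α 0, α 1, h1 0, h1 1, ?_, ?_⟩
  · rw [h2]; simp
  · rw [h3]; simp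

end

section
variable {K : Type} [Field K] [NumberField K] (M : Type) [Field M] [NumberField M] [Algebra K M]

/-- The prime `v` of `K` divides neither `6` nor the discriminant of `W`, and it is unramified
in `M`. -/
def Good (W : WeierstrassCurve (𝓞 K)) (v : HeightOneSpectrum (𝓞 K)) : Prop :=
  (6 : 𝓞 K) ∉ v.asIdeal ∧ W.Δ ∉ v.asIdeal ∧ Unramified M v

open scoped Classical in
/-- A Frobenius element at `v` in the Galois group of `M` over `K`. -/
noncomputable def frob (v : HeightOneSpectrum (𝓞 K)) : M ≃ₐ[K] M :=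
  if h : ∃ g : M ≃ₐ[K] M, IsFrobenius v g then h.choose else 1

open scoped Classical in
/-- `φ(Frob_v^n) (α^n + β^n) / (n q_v^{n s})`, `n = x.2 + 1`, for the good primes `v = x.1`. -/
noncomputable def term (W : WeierstrassCurve (𝓞 K)) (φ : (M ≃ₐ[K] M) → ℂ) (s : ℂ)
    (x : HeightOneSpectrum (𝓞 K) × ℕ) : ℂ :=
  if Good M W x.1 then φ (frob M x.1 ^ (x.2 + 1)) *
    ((powerSum (frobTrace W x.1) (Ideal.absNorm x.1.asIdeal) (x.2 + 1) : ℤ) : ℂ) /
      (((x.2 + 1 : ℕ) : ℂ) * (Ideal.absNorm x.1.asIdeal : ℂ) ^ (((x.2 + 1 : ℕ) : ℂ) * s)) else 0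

/-- The L-function `L(E ⊗ φ, s)` of the elliptic curve `E` given by `W`, twisted by the class
function `φ` of the Galois group of `M` over `K`, without the Euler factors at the primes which are
not good. -/
noncomputable def twistedL (W : WeierstrassCurve (𝓞 K)) (φ : (M ≃ₐ[K] M) → ℂ) (s : ℂ) : ℂ :=
  Complex.exp (∑' x, term M W φ s x)

variable {M}

theorem exists_isFrobenius [IsGalois K M] (v : HeightOneSpectrum (𝓞 K)) :
    ∃ g : M ≃ₐ[K] M, IsFrobenius v g := by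
  obtain ⟨σ, Q, hQm, hQv, hQ⟩ := Pool.Agent.W401.Frob.exists_frob v
  have hQp : Q.IsPrime := hQm.isPrime
  let ι : M →ₐ[K] AlgebraicClosure K := IsAlgClosed.lift
  obtain ⟨g, hg⟩ := (emb_bijective ι).2 (act K M σ ι)
  have hc : (Q.comap (oi ι)).comap (algebraMap (𝓞 K) (𝓞 M)) = v.asIdeal := by
    rw [← hQv]
    ext a
    rw [Ideal.mem_comap, Ideal.mem_comap, Ideal.mem_comap, oi_alg]
  have hp : (Q.comap (oi ι)).IsPrime := Ideal.comap_isPrime _ _
  have h0 : Q.comap (oi ι) ≠ ⊥ := by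
    intro h
    apply v.ne_bot
    rw [← hc, h, ← RingHom.ker_eq_comap_bot]
    exact (RingHom.injective_iff_ker_eq_bot _).1 (FaithfulSMul.algebraMap_injective (𝓞 K) (𝓞 M))
  refine ⟨g, Q.comap (oi ι), hp.isMaximal h0, hc, fun x => ?_⟩
  have hgx : IsIntegral ℤ (g (x : M)) := x.2.map g
  obtain ⟨y, hy⟩ : ∃ y : 𝓞 M, (y : M) = g (x : M) := ⟨⟨g (x : M), hgx⟩, rfl⟩
  refine ⟨y - x ^ Ideal.absNorm v.asIdeal, ?_, by rw [← hy]; rfl⟩
  rw [Ideal.mem_comap, map_sub, map_pow]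
  have h1 : oi ι y = σ • oi ι x := by
    apply RingOfIntegers.ext
    have h2 : ι (g (x : M)) = σ (ι (x : M)) := DFunLike.congr_fun hg (x : M)
    rw [oi_coe, hy]
    exact h2
  rw [h1]
  exact hQ _

theorem frob_spec [IsGalois K M] (v : HeightOneSpectrum (𝓞 K)) :
    IsFrobenius v (frob M v) := by
  unfold frob
  rw [dif_pos (exists_isFrobenius v)]
  exact (exists_isFrobenius (M := M) v).choose_spec

end

end Pool.Agent.Q92.RT
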