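import Pool.Agent.Q92.RT.Brg
import Pool.Agent.Q5.BR.Sing

/-!
# The L-functions of an elliptic curve over a Galois extension

`M/K` is a Galois extension of number fields, `E` an elliptic curve over `K`, given by an integral
Weierstrass equation `W`.  The L-functions `L(E ⊗ φ, s)`, `φ` a class function of the Galois group,
are `twistedL M W φ`; `cont` is the meromorphic continuation.  If these functions have the properties
known for automorphic L-functions (`Automorphic`), then they form a `TwistData` at `s₀`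
(`TwistData.ofCurve`), and the order at `s = 1` of the L-function of `E` over a field `F` between `K`
and `M` is the order of the function of the trivial character of the group of `M/F`.
-/

set_option autoImplicit false
set_option linter.unusedSectionVars false

namespace Pool.Agent.Q92.RT

open NumberField IsDedekindDomain Filter Topology Pool.Agent.H341R2 Pool.Agent.H341R2.EC
  Pool.Agent.H921R2.TatePole Pool.Agent.W353.NF Pool.Agent.Q5.BR Pool.Agent.H541R3.ART
  Pool.Agent.W446.AS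
open Pool.Agent.TH322.BC.Edge (MinimalModels)

open Pool.Agent.TH322.BC.Edge renaming LSeries → LS

/-- `f` is meromorphic on `ℂ` and continues the function `g`, given for `Re s > 3/2`. -/
def Continues (f g : ℂ → ℂ) : Prop :=
  MeromorphicOn f Set.univ ∧ ∀ s : ℂ, 3 / 2 < s.re → f s = g s

open scoped Classical in
/-- The meromorphic continuation of `g`. -/
noncomputable def cont (g : ℂ → ℂ) : ℂ → ℂ := if h : ∃ f, Continues f g then h.choose else 0

theorem cont_spec {g : ℂ → ℂ} (h : ∃ f, Continues f g) : Continues (cont g) g := by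
  unfold cont
  rw [dif_pos h]
  exact h.choose_spec

/-- the identity theorem -/
theorem Continues.eventuallyEq {f f' g g' : ℂ → ℂ} (h : Continues f g) (h' : Continues f' g')
    (hg : ∀ s : ℂ, 3 / 2 < s.re → g s = g' s) (z : ℂ) : f =ᶠ[𝓝[≠] z] f' := by
  have hd : MeromorphicOn (fun s => f s - f' s) Set.univ := fun s hs =>
    (h.1 s hs).fun_sub (h'.1 s hs)
  have hopen : IsOpen {s : ℂ | 3 / 2 < s.re} := isOpen_lt continuous_const Complex.continuous_re
  have h2 : meromorphicOrderAt (fun s => f s - f' s) 2 = ⊤ := by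
    rw [meromorphicOrderAt_eq_top_iff]
    have h2' : ({s : ℂ | 3 / 2 < s.re} : Set ℂ) ∈ 𝓝 (2 : ℂ) :=
      hopen.mem_nhds (by change (3 / 2 : ℝ) < (2 : ℂ).re; norm_num)
    filter_upwards [mem_nhdsWithin_of_mem_nhds h2'] with s hs
    rw [h.2 s hs, h'.2 s hs, hg s hs, sub_self]
  have h3 : meromorphicOrderAt (fun s => f s - f' s) z = ⊤ := by
    by_contra h4
    have h5 := (hd.exists_meromorphicOrderAt_ne_top_iff_forall isConnected_univ).1
      ⟨⟨z, Set.mem_univ _⟩, h4⟩
    exact h5 ⟨2, Set.mem_univ _⟩ h2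
  rw [meromorphicOrderAt_eq_top_iff] at h3
  filter_upwards [h3] with s hs
  exact sub_eq_zero.1 hs

theorem Continues.order_eq {f f' g g' : ℂ → ℂ} (h : Continues f g) (h' : Continues f' g')
    (hg : ∀ s : ℂ, 3 / 2 < s.re → g s = g' s) (z : ℂ) :
    meromorphicOrderAt f z = meromorphicOrderAt f' z :=
  meromorphicOrderAt_congr (h.eventuallyEq h' hg z)

theorem Continues.order_ne_top {f g : ℂ → ℂ} (h : Continues f g)
    (hg : ∀ s : ℂ, 3 / 2 < s.re → g s ≠ 0) (z : ℂ) : meromorphicOrderAt f z ≠ ⊤ := by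
  intro h4
  have hopen : IsOpen {s : ℂ | 3 / 2 < s.re} := isOpen_lt continuous_const Complex.continuous_re
  have h2 : meromorphicOrderAt f 2 ≠ ⊤ := by
    intro h5
    rw [meromorphicOrderAt_eq_top_iff] at h5
    have h2' : ({s : ℂ | 3 / 2 < s.re} : Set ℂ) ∈ 𝓝 (2 : ℂ) :=
      hopen.mem_nhds (by change (3 / 2 : ℝ) < (2 : ℂ).re; norm_num)
    have h6 : ∀ᶠ s in 𝓝[≠] (2 : ℂ), False := by
      filter_upwards [mem_nhdsWithin_of_mem_nhds h2', h5] with s hs hs2
      rw [h.2 s hs] at hs2
      exact hg s hs hs2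
    exact (NeBot.ne inferInstance) (Filter.eventually_false_iff_eq_bot.1 h6)
  exact (h.1.exists_meromorphicOrderAt_ne_top_iff_forall isConnected_univ).1
      ⟨⟨2, Set.mem_univ _⟩, h2⟩ ⟨z, Set.mem_univ _⟩ h4

section
variable {K : Type} [Field K] [NumberField K] (M : Type) [Field M] [NumberField M] [Algebra K M]

/-- The properties of the L-functions of the elliptic curve `E` given by `W` known for automorphic
`E`: the function `L(E ⊗ χ, s)` has a meromorphic continuation for each irreducible character `χ` of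
the Galois group of `M` over `K`, and `L(E ⊗ Ind ψ, s)`, the L-function of `E ⊗ ψ` over the fixed
field of `H`, is holomorphic at `s₀` for each linear character `ψ` of a solvable subgroup `H`. -/
structure Automorphic (W : WeierstrassCurve (𝓞 K)) (s₀ : ℂ) : Prop where
  mero : ∀ χ ∈ Irr (M ≃ₐ[K] M), ∃ f : ℂ → ℂ, Continues f (twistedL M W χ)
  hol : ∀ (H : Subgroup (M ≃ₐ[K] M)) (ψ : H →* ℂˣ), Group.IsSolvable H →
    ∃ f : ℂ → ℂ, Continues f (twistedL M W (induced H ψ)) ∧ AnalyticAt ℂ f s₀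

variable {M}

/-- the L-function of an induced character is a product -/
theorem twistedL_induced (W : WeierstrassCurve (𝓞 K)) (H : Subgroup (M ≃ₐ[K] M)) (ψ : H →* ℂˣ)
    {m : ((M ≃ₐ[K] M) → ℂ) → ℕ}
    (hm : ∀ χ ∈ Irr (M ≃ₐ[K] M), ∑ᶠ h : H, χ h * (((ψ h)⁻¹ : ℂˣ) : ℂ) =
      (m χ : ℂ) * (Nat.card H : ℂ)) {s : ℂ} (hs : 3 / 2 < s.re) :
    twistedL M W (induced H ψ) s = ∏ χ ∈ irrF (M ≃ₐ[K] M), twistedL M W χ s ^ m χ := by
  have : Fintype (M ≃ₐ[K] M) := Fintype.ofFinite _
  rw [← twistedL_sum W (irrF (M ≃ₐ[K] M)) m (fun χ => χ) hs]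
  congr 1
  funext g
  refine class_expand (m := fun χ => (m χ : ℂ)) (fun g x => induced_conj H ψ g x)
    (fun χ hχ => ?_) g
  exact induced_pair H ψ (fun g x => Irr.conj hχ g x) (hm χ hχ)

theorem continues_prod {W : WeierstrassCurve (𝓞 K)}
    (h : ∀ χ ∈ Irr (M ≃ₐ[K] M), ∃ f : ℂ → ℂ, Continues f (twistedL M W χ))
    (H : Subgroup (M ≃ₐ[K] M)) (ψ : H →* ℂˣ) {m : ((M ≃ₐ[K] M) → ℂ) → ℕ}
    (hm : ∀ χ ∈ Irr (M ≃ₐ[K] M), ∑ᶠ h : H, χ h * (((ψ h)⁻¹ : ℂˣ) : ℂ) =
      (m χ : ℂ) * (Nat.card H : ℂ)) :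
    Continues (fun s => ∏ χ ∈ irrF (M ≃ₐ[K] M), cont (twistedL M W χ) s ^ m χ)
      (twistedL M W (induced H ψ)) := by
  refine ⟨fun s hs => ?_, fun s hs => ?_⟩
  · exact MeromorphicAt.fun_prod fun χ hχ =>
      ((cont_spec (h χ (mem_irrF.1 hχ))).1 s hs).fun_pow _
  · rw [twistedL_induced W H ψ hm hs]
    exact Finset.prod_congr rfl fun χ hχ => by rw [(cont_spec (h χ (mem_irrF.1 hχ))).2 s hs]

theorem exists_continues {W : WeierstrassCurve (𝓞 K)}
    (h : ∀ χ ∈ Irr (M ≃ₐ[K] M), ∃ f : ℂ → ℂ, Continues f (twistedL M W χ))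
    (H : Subgroup (M ≃ₐ[K] M)) (ψ : H →* ℂˣ) :
    ∃ f : ℂ → ℂ, Continues f (twistedL M W (induced H ψ)) := by
  classical
  choose! m hm using fun χ (hχ : χ ∈ Irr (M ≃ₐ[K] M)) => exists_mult hχ H ψ
  exact ⟨_, continues_prod h H ψ hm⟩

end

end Pool.Agent.Q92.RT

namespace Pool.Agent.Q7.SZ

open NumberField IsDedekindDomain Filter Topology Pool.Agent.H541R3.ART Pool.Agent.W446.AS
open Pool.Agent.Q92.RT

variable {K : Type} [Field K] [NumberField K] {M : Type} [Field M] [NumberField M] [Algebra K M]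

/-- **The L-functions of an elliptic curve over a Galois extension form a `TwistData`.** -/
noncomputable def TwistData.ofCurve {W : WeierstrassCurve (𝓞 K)} {s₀ : ℂ}
    (h : Automorphic M W s₀) : TwistData (M ≃ₐ[K] M) s₀ where
  L χ := cont (twistedL M W χ)
  Lin H ψ := cont (twistedL M W (induced H ψ))
  mero χ hχ :=
    ⟨(cont_spec (h.mero χ hχ)).1 s₀ (Set.mem_univ _),
      (cont_spec (h.mero χ hχ)).order_ne_top (fun s _ => twistedL_ne_zero W χ s) s₀⟩
  hol H ψ hH := by
    obtain ⟨f, hf, hf2⟩ := h.hol H ψ hH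
    rw [(cont_spec ⟨f, hf⟩).order_eq hf (fun _ _ => rfl) s₀]
    exact hf2.meromorphicOrderAt_nonneg
  induce H ψ m hm := by
    have h1 := (cont_spec (exists_continues h.mero H ψ)).eventuallyEq
      (continues_prod h.mero H ψ hm) (fun _ _ => rfl) s₀
    filter_upwards [h1] with s hs
    rw [hs, finprod_mem_eq_finite_toFinset_prod _ (irr_finite (G := M ≃ₐ[K] M))]
    rfl

end Pool.Agent.Q7.SZ

namespace Pool.Agent.Q92.RT

open NumberField IsDedekindDomain Filter Topology Pool.Agent.H341R2 Pool.Agent.H341R2.EC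
  Pool.Agent.H921R2.TatePole Pool.Agent.W353.NF Pool.Agent.Q5.BR Pool.Agent.H541R3.ART
  Pool.Agent.W446.AS
open Pool.Agent.TH322.BC.Edge (MinimalModels)

open Pool.Agent.TH322.BC.Edge renaming LSeries → LS

section
variable {K F M : Type} [Field K] [NumberField K] [Field F] [NumberField F] [Field M] [NumberField M]
  [Algebra K F] [Algebra K M] [Algebra F M] [IsScalarTower K F M] [IsGalois K M]

/-- the product of the Euler factors left out in the twisted L-functions -/
noncomputable def excl (M : Type) [Field M] [NumberField M] [Algebra K M]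
    (W : WeierstrassCurve (𝓞 K)) (V : HeightOneSpectrum (𝓞 F) → WeierstrassCurve (𝓞 F)) (s : ℂ) : ℂ :=
  ∏ᶠ v ∈ {v : HeightOneSpectrum (𝓞 K) | ¬ Good M W v}, ∏ w ∈ above F v, (1 - zz V w s)⁻¹

theorem excl_eq {W : WeierstrassCurve (𝓞 K)} (hW : W.Δ ≠ 0)
    (V : HeightOneSpectrum (𝓞 F) → WeierstrassCurve (𝓞 F)) (s : ℂ) :
    excl M W V s = ∏ v ∈ (bad_finite (M := M) hW).toFinset, ∏ w ∈ above F v, (1 - zz V w s)⁻¹ := by
  unfold excl
  exact finprod_mem_eq_finite_toFinset_prod _ (bad_finite (M := M) hW)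

theorem excl_meromorphic {W : WeierstrassCurve (𝓞 K)} (hW : W.Δ ≠ 0)
    (V : HeightOneSpectrum (𝓞 F) → WeierstrassCurve (𝓞 F)) :
    MeromorphicOn (excl M W V) Set.univ := by
  have e : excl M W V = fun s => ∏ v ∈ (bad_finite (M := M) hW).toFinset,
    ∏ w ∈ above F v, (1 - zz V w s)⁻¹ := funext fun s => excl_eq hW V s
  rw [e]
  intro s _
  exact MeromorphicAt.fun_prod fun v _ => MeromorphicAt.fun_prod fun w _ => meromorphic_fac _ _ _

theorem excl_order {W : WeierstrassCurve (𝓞 K)} (hW : W.Δ ≠ 0)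
    (V : HeightOneSpectrum (𝓞 F) → WeierstrassCurve (𝓞 F)) :
    AnalyticAt ℂ (excl M W V) 1 ∧ excl M W V 1 ≠ 0 := by
  have e : excl M W V = fun s => ∏ v ∈ (bad_finite (M := M) hW).toFinset,
    ∏ w ∈ above F v, (1 - zz V w s)⁻¹ := funext fun s => excl_eq hW V s
  rw [e]
  refine ⟨Finset.analyticAt_fun_prod _ fun v _ => Finset.analyticAt_fun_prod _ fun w _ =>
    fac_analytic _ _, ?_⟩
  exact Finset.prod_ne_zero_iff.2 fun v _ => Finset.prod_ne_zero_iff.2 fun w _ =>
    inv_ne_zero (fac_one_ne _ _)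

/-- **The L-function of `E` over a field between `K` and `M`**: its continuation. -/
theorem continues_field {E : WeierstrassCurve K} (hE : E.IsElliptic) {W : WeierstrassCurve (𝓞 K)}
    (hW : IsModel E W) {V : HeightOneSpectrum (𝓞 F) → WeierstrassCurve (𝓞 F)}
    (hV : MinimalModels (E.map (algebraMap K F)) V) {f : ℂ → ℂ}
    (hf : Continues f (twistedL M W (induced (fixer K F M) 1))) :
    Continues (fun s => excl M W V s * f s) (LS V) := by
  have hΔ := model_Δ hE hW
  refine ⟨fun s hs => (excl_meromorphic hΔ V s hs).fun_mul (hf.1 s hs), fun s hs => ?_⟩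
  change excl M W V s * f s = _
  rw [LS_eq (M := M) hE hW hV hs, hf.2 s hs, excl_eq hΔ]

/-- **The order at `s = 1` over a field between `K` and `M`.** -/
theorem order_field {E : WeierstrassCurve K} (hE : E.IsElliptic) {W : WeierstrassCurve (𝓞 K)}
    (hW : IsModel E W) {V : HeightOneSpectrum (𝓞 F) → WeierstrassCurve (𝓞 F)}
    (hV : MinimalModels (E.map (algebraMap K F)) V) {f g : ℂ → ℂ}
    (hf : Continues f (LS V)) (hg : Continues g (twistedL M W (induced (fixer K F M) 1))) :
    meromorphicOrderAt f 1 = meromorphicOrderAt g 1 := by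
  have hΔ := model_Δ hE hW
  rw [hf.order_eq (continues_field hE hW hV hg) (fun _ _ => rfl) 1]
  obtain ⟨h1, h2⟩ := excl_order (M := M) (F := F) hΔ V
  rw [fun_meromorphicOrderAt_mul h1.meromorphicAt (hg.1 1 (Set.mem_univ _)),
    h1.meromorphicOrderAt_eq, h1.analyticOrderAt_eq_zero.2 h2]
  simp

end

end Pool.Agent.Q92.RT

namespace Pool.Agent.Q92.RT

open NumberField

section
variable {K M : Type} [Field K] [NumberField K] [Field M] [NumberField M] [Algebra K M]

theorem fixer_self : fixer K M M = ⊥ := by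
  rw [eq_bot_iff]
  intro g hg
  rw [Subgroup.mem_bot]
  ext x
  exact hg x

theorem fixer_base : fixer K K M = ⊤ := by
  rw [eq_top_iff]
  intro g _ x
  exact g.commutes x

theorem fixer_fixedField [IsGalois K M] (H : Subgroup (M ≃ₐ[K] M)) :
    fixer K (IntermediateField.fixedField H) M = H := by
  ext g
  have h := IntermediateField.fixingSubgroup_fixedField H
  constructor
  · intro hg
    rw [← h, IntermediateField.mem_fixingSubgroup_iff]
    intro x hx
    exact hg ⟨x, hx⟩
  · intro hg x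
    exact x.2 ⟨g, hg⟩

end

end Pool.Agent.Q92.RT
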